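import Pool.Agent.Q23.EG.Stm

set_option autoImplicit false

/-!
# Project EG, job C1: pigeonhole for boxes
-/

namespace Pool.Agent.Q149.EG

open Finset Polynomial
open Pool.Agent.Q23.EG

/-- **JOB C1** -/
theorem pigeon : S_pigeon := by
  intro M T _ I Deg hT hlt
  classical
  have hM : 0 < M := Nat.pos_of_ne_zero (NeZero.ne M)
  -- the boxes
  let f : ZMod M → (I → Fin T) := fun w h => ⟨T * (w * ((h : (ZMod M)ˣ) : ZMod M)).val / M, by
    rw [Nat.div_lt_iff_lt_mul hM]
    exact Nat.mul_lt_mul_of_pos_left (ZMod.val_lt _) hT⟩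
  obtain ⟨y, -, hy⟩ := Finset.exists_lt_card_fiber_of_mul_lt_card_of_maps_to (s := (univ : Finset (ZMod M)))
    (t := (univ : Finset (I → Fin T))) (f := f) (n := Deg.card) (fun _ _ => mem_univ _) (by
      rw [card_univ, card_univ, ZMod.card, Fintype.card_fun, Fintype.card_fin, Fintype.card_coe]
      exact hlt)
  have hpos : 0 < (univ.filter fun w => f w = y).card := lt_of_le_of_lt (Nat.zero_le _) hy
  obtain ⟨w', hw'⟩ := card_pos.1 hpos
  -- differences
  have himg : ((univ.filter fun w => f w = y).image fun w => w - w').card = (univ.filter fun w => f w = y).card :=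
    card_image_of_injective _ sub_left_injective
  obtain ⟨d, hd1, hd2⟩ : ∃ d ∈ (univ.filter fun w => f w = y).image (fun w => w - w'), d ∉ Deg := by
    by_contra h
    push Not at h
    have := card_le_card (show (univ.filter fun w => f w = y).image (fun w => w - w') ⊆ Deg from h)
    omega
  obtain ⟨w, hw, rfl⟩ := mem_image.1 hd1
  refine ⟨w - w', hd2, fun h hh => ?_⟩
  have e1 : f w = f w' := by rw [(mem_filter.1 hw).2, (mem_filter.1 hw').2]
  have e2 := congrArg Fin.val (congrFun e1 ⟨h, hh⟩)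
  change T * (w * (h : ZMod M)).val / M = T * (w' * (h : ZMod M)).val / M at e2
  obtain ⟨a, ha⟩ : ∃ a : ℕ, a = (w * (h : ZMod M)).val := ⟨_, rfl⟩
  obtain ⟨b, hb⟩ : ∃ b : ℕ, b = (w' * (h : ZMod M)).val := ⟨_, rfl⟩
  rw [← ha, ← hb] at e2
  have e3 : (((w - w') * (h : ZMod M)).valMinAbs : ZMod M) = (((a : ℤ) - b : ℤ) : ZMod M) := by
    rw [ZMod.coe_valMinAbs, ha, hb]
    push_cast
    rw [ZMod.natCast_zmod_val, ZMod.natCast_zmod_val, sub_mul]
  have e4 := ZMod.natAbs_min_of_le_div_two M _ _ e3 (ZMod.natAbs_valMinAbs_le _)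
  have e5 : ((a : ℤ) - b).natAbs * T < M := by
    have h1 := Nat.mul_div_le (T * a) M
    have h2 := Nat.lt_mul_div_succ (T * a) hM
    have h3 := Nat.mul_div_le (T * b) M
    have h4 := Nat.lt_mul_div_succ (T * b) hM
    rw [← e2] at h3 h4
    obtain ⟨q, hq⟩ : ∃ q : ℕ, q = T * a / M := ⟨_, rfl⟩
    rw [← hq] at h1 h2 h3 h4
    zify at h1 h2 h3 h4 ⊢
    have h5 : |(a : ℤ) - b| * T = |((a : ℤ) - b) * T| := by
      rw [abs_mul, abs_of_nonneg (show (0 : ℤ) ≤ T by positivity)]
    rw [h5, abs_lt]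
    constructor <;> nlinarith
  exact lt_of_le_of_lt (Nat.mul_le_mul_right _ e4) e5

end Pool.Agent.Q149.EG
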