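import Pool.Agent.Q23.EG.Stm

set_option autoImplicit false

/-!
# Project EG, job C2: the functional separating the classes
-/

namespace Pool.Agent.Q149.EG

open Finset Polynomial
open Pool.Agent.Q23.EG

theorem valMinAbs_neg_of_small {M T : ℕ} (hT : 2 ≤ T) {a : ZMod M} (h : a.valMinAbs.natAbs * T < M) :
    (-a).valMinAbs = -a.valMinAbs := by
  have : NeZero M := ⟨by omega⟩
  refine ZMod.valMinAbs_neg_of_ne_half fun h2 => ?_
  have h3 : a.valMinAbs = a.val := by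
    rw [ZMod.valMinAbs_def_pos, if_pos (by omega)]
  rw [h3, Int.natAbs_natCast] at h
  nlinarith

/-- **JOB C2** -/
theorem lam : S_lam := by
  intro M T _ G w hT hw hsmall hdis hneg
  classical
  have : Fintype G := Fintype.ofFinite _
  obtain ⟨γ₀, -, hmax⟩ := Finset.exists_max_image (univ : Finset G)
    (fun γ : G => (w * ((γ : (ZMod M)ˣ) : ZMod M)).valMinAbs.natAbs) ⟨1, mem_univ _⟩
  obtain ⟨v, hv⟩ : ∃ v : (ZMod M)ˣ → ℤ,
    v = fun h : (ZMod M)ˣ => (w * ((γ₀ : (ZMod M)ˣ) : ZMod M) * (h : ZMod M)).valMinAbs := ⟨_, rfl⟩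
  have hvmul : ∀ h : (ZMod M)ˣ, v h = (w * (((γ₀ : (ZMod M)ˣ) * h : (ZMod M)ˣ) : ZMod M)).valMinAbs := by
    intro h
    rw [hv, Units.val_mul, ← mul_assoc]
  have hcast : ∀ h : (ZMod M)ˣ, ((v h : ℤ) : ZMod M) = w * ((γ₀ : (ZMod M)ˣ) : ZMod M) * (h : ZMod M) := by
    intro h
    rw [hv]
    exact ZMod.coe_valMinAbs _
  have hv1 : v 1 = (w * ((γ₀ : (ZMod M)ˣ) : ZMod M)).valMinAbs := by
    rw [hvmul, mul_one]
  have hle : ∀ h ∈ G, |v h| ≤ |v 1| := by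
    intro h hh
    have h1 := hmax ⟨(γ₀ : (ZMod M)ˣ) * h, G.mul_mem γ₀.2 hh⟩ (mem_univ _)
    rw [hvmul, hv1, Int.abs_eq_natAbs, Int.abs_eq_natAbs]
    exact_mod_cast h1
  have hsm : ∀ h ∈ G, (v h).natAbs * T < M := by
    intro h hh
    rw [hvmul]
    exact hsmall _ (G.mul_mem γ₀.2 hh)
  have hv10 : v 1 ≠ 0 := by
    intro h
    rw [hv1, ZMod.valMinAbs_eq_zero] at h
    exact hw ((Units.mul_left_eq_zero _).1 h)
  have hvneg : ∀ h ∈ G, v (-h) = -v h := by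
    intro h hh
    have h1 := valMinAbs_neg_of_small hT (hsm h hh |> fun h2 => by rw [hv] at h2; exact h2)
    rw [hv]
    show (w * ((γ₀ : (ZMod M)ˣ) : ZMod M) * ((-h : (ZMod M)ˣ) : ZMod M)).valMinAbs = _
    rw [Units.val_neg, mul_neg]
    exact h1
  have hsep : ∀ h ∈ G, (v h = v 1 ∨ v h = -v 1) → h = 1 ∨ h = -1 := by
    intro h hh h2
    refine hdis h hh ?_
    have hc := hcast h
    have hc1 := hcast 1
    rw [Units.val_one, mul_one] at hc1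
    rcases h2 with h2 | h2
    · left
      rw [h2, hc1] at hc
      have h3 : (w * (h : ZMod M)) * ((γ₀ : (ZMod M)ˣ) : ZMod M) = w * ((γ₀ : (ZMod M)ˣ) : ZMod M) := by
        rw [hc]; ring
      exact (Units.mul_left_inj _).1 h3
    · right
      rw [h2, Int.cast_neg, hc1] at hc
      have h3 : (w * (h : ZMod M)) * ((γ₀ : (ZMod M)ˣ) : ZMod M) = (-w) * ((γ₀ : (ZMod M)ˣ) : ZMod M) := by
        rw [neg_mul, hc]; ring
      exact (Units.mul_left_inj _).1 h3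
  -- the pairings
  have hpair : ∀ γ ∈ G, ∀ κ : (ZMod M)ˣ → ℤ, (∀ h, h ∉ G → κ h = 0) → ∑ h : (ZMod M)ˣ, |κ h| ≤ (T : ℤ) →
      ∑ h : (ZMod M)ˣ, ((κ h : ℤ) : ZMod M) * (h : ZMod M) = 0 → ∑ h : (ZMod M)ˣ, κ h * v (γ * h) = 0 := by
    intro γ hγ κ h1 h2 h3
    refine Int.eq_zero_of_abs_lt_dvd (m := (M : ℤ)) ?_ ?_
    · rw [← ZMod.intCast_zmod_eq_zero_iff_dvd]
      push_cast
      have e : ∀ h : (ZMod M)ˣ, ((κ h : ℤ) : ZMod M) * ((v (γ * h) : ℤ) : ZMod M) =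
          (w * ((γ₀ : (ZMod M)ˣ) : ZMod M) * (γ : ZMod M)) * (((κ h : ℤ) : ZMod M) * (h : ZMod M)) := by
        intro h
        rw [hcast, Units.val_mul]
        ring
      rw [sum_congr rfl fun h _ => e h, ← mul_sum, h3, mul_zero]
    · have e1 : |∑ h : (ZMod M)ˣ, κ h * v (γ * h)| ≤ ∑ h : (ZMod M)ˣ, |κ h| * |v 1| := by
        refine (abs_sum_le_sum_abs _ _).trans (sum_le_sum fun h _ => ?_)
        rw [abs_mul]
        by_cases hh : h ∈ G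
        · exact mul_le_mul_of_nonneg_left (hle _ (G.mul_mem hγ hh)) (abs_nonneg _)
        · rw [h1 h hh]; simp
      rw [← sum_mul] at e1
      have e2 : (∑ h : (ZMod M)ˣ, |κ h|) * |v 1| ≤ T * |v 1| := mul_le_mul_of_nonneg_right h2 (abs_nonneg _)
      have e3 : (T : ℤ) * |v 1| < M := by
        have := hsm 1 G.one_mem
        rw [Int.abs_eq_natAbs, mul_comm]
        exact_mod_cast this
      linarith
  -- the differences
  obtain ⟨ν, hν⟩ : ∃ ν : (ZMod M)ˣ → (ZMod M)ˣ → ℤ, ν = fun γ h => v 1 * v (γ * h) - v γ * v h := ⟨_, rfl⟩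
  have hν1 : ∀ γ, ν γ 1 = 0 := by
    intro γ
    rw [hν]
    show v 1 * v (γ * 1) - v γ * v 1 = 0
    rw [mul_one]
    ring
  have hνneg : ∀ γ ∈ G, ∀ h ∈ G, ν γ (-h) = -ν γ h := by
    intro γ hγ h hh
    rw [hν]
    show v 1 * v (γ * -h) - v γ * v (-h) = -(v 1 * v (γ * h) - v γ * v h)
    rw [mul_neg, hvneg _ (G.mul_mem hγ hh), hvneg _ hh]
    ring
  have hνne : ∀ h ∈ G, h ≠ 1 → h ≠ -1 → ν h⁻¹ h ≠ 0 := by
    intro h hh h1 h2 h3
    rw [hν] at h3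
    change v 1 * v (h⁻¹ * h) - v h⁻¹ * v h = 0 at h3
    rw [inv_mul_cancel] at h3
    have l1 := hle h hh
    have l2 := hle h⁻¹ (G.inv_mem hh)
    have p1 : 0 < |v 1| := abs_pos.2 hv10
    have h4 : |v 1| * |v 1| = |v h⁻¹| * |v h| := by
      rw [← abs_mul, ← abs_mul]
      congr 1
      linarith
    have h5 : |v h| = |v 1| := by
      refine le_antisymm l1 ?_
      by_contra h6
      push Not at h6
      nlinarith [abs_nonneg (v h), abs_nonneg (v h⁻¹)]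
    rcases hsep h hh (abs_eq_abs.1 h5) with h6 | h6
    · exact h1 h6
    · exact h2 h6
  have hνpair : ∀ γ ∈ G, ∀ κ : (ZMod M)ˣ → ℤ, (∀ h, h ∉ G → κ h = 0) → ∑ h : (ZMod M)ˣ, |κ h| ≤ (T : ℤ) →
      ∑ h : (ZMod M)ˣ, ((κ h : ℤ) : ZMod M) * (h : ZMod M) = 0 → ∑ h : (ZMod M)ˣ, κ h * ν γ h = 0 := by
    intro γ hγ κ h1 h2 h3
    have a1 := hpair γ hγ κ h1 h2 h3
    have a2 := hpair 1 G.one_mem κ h1 h2 h3
    simp only [one_mul] at a2
    have e : ∀ h : (ZMod M)ˣ, κ h * ν γ h = v 1 * (κ h * v (γ * h)) - v γ * (κ h * v h) := by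
      intro h
      rw [hν]
      ring
    rw [sum_congr rfl fun h _ => e h, sum_sub_distrib, ← mul_sum, ← mul_sum, a1, a2]
    ring
  -- the polynomials
  obtain ⟨P, hP⟩ : ∃ P : (ZMod M)ˣ → ℤ[X],
    P = fun h => ∑ γ : G, C (ν (γ : (ZMod M)ˣ) h) * X ^ ((Fintype.equivFin G γ : Fin _) : ℕ) := ⟨_, rfl⟩
  have hPc : ∀ (h : (ZMod M)ˣ) (γ : G), (P h).coeff ((Fintype.equivFin G γ : Fin _) : ℕ) = ν (γ : (ZMod M)ˣ) h := by
    intro h γ
    rw [hP]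
    simp only [finsetSum_coeff, coeff_C_mul_X_pow]
    rw [Finset.sum_eq_single γ]
    · rw [if_pos rfl]
    · intro γ' _ hne
      rw [if_neg]
      intro h'
      exact hne ((Fintype.equivFin G).injective (Fin.ext h'.symm))
    · intro h'
      exact absurd (mem_univ _) h'
  obtain ⟨T₀, hT₀⟩ : ∃ T₀ : ℤ, (∏ h ∈ univ.filter (fun h : (ZMod M)ˣ => h ∈ G ∧ h ≠ 1 ∧ h ≠ -1), P h).eval T₀ ≠ 0 := by
    by_contra hcon
    push Not at hcon
    have h1 : (∏ h ∈ univ.filter (fun h : (ZMod M)ˣ => h ∈ G ∧ h ≠ 1 ∧ h ≠ -1), P h) = 0 :=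
      Polynomial.funext fun r => by rw [hcon r, eval_zero]
    rw [prod_eq_zero_iff] at h1
    obtain ⟨h, hh, h2⟩ := h1
    obtain ⟨-, hG, hh1, hh2⟩ := mem_filter.1 hh
    have h3 := hPc h ⟨h⁻¹, G.inv_mem hG⟩
    rw [h2, coeff_zero] at h3
    exact hνne h hG hh1 hh2 h3.symm
  have hPe : ∀ h : (ZMod M)ˣ, (P h).eval T₀ =
      ∑ γ : G, ν (γ : (ZMod M)ˣ) h * T₀ ^ ((Fintype.equivFin G γ : Fin _) : ℕ) := by
    intro h
    rw [hP]
    simp only [eval_finsetSum, eval_mul, eval_C, eval_pow, eval_X]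
  refine ⟨fun h => (P h).eval T₀, ?_, ?_, ?_, ?_⟩
  · show (P 1).eval T₀ = 0
    rw [hPe]
    exact sum_eq_zero fun γ _ => by rw [hν1, zero_mul]
  · intro h hh
    show (P (-h)).eval T₀ = -(P h).eval T₀
    rw [hPe, hPe, ← sum_neg_distrib]
    exact sum_congr rfl fun γ _ => by rw [hνneg _ γ.2 h hh, neg_mul]
  · intro h hh h1 h2 h3
    rw [eval_prod] at hT₀
    exact (prod_ne_zero_iff.1 hT₀) h (mem_filter.2 ⟨mem_univ _, hh, h1, h2⟩) h3
  · intro κ h1 h2 h3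
    show ∑ h : (ZMod M)ˣ, κ h * (P h).eval T₀ = 0
    have e : ∀ h : (ZMod M)ˣ, κ h * (P h).eval T₀ =
        ∑ γ : G, T₀ ^ ((Fintype.equivFin G γ : Fin _) : ℕ) * (κ h * ν (γ : (ZMod M)ˣ) h) := by
      intro h
      rw [hPe, mul_sum]
      exact sum_congr rfl fun γ _ => by ring
    rw [sum_congr rfl fun h _ => e h, sum_comm]
    refine sum_eq_zero fun γ _ => ?_
    rw [← mul_sum, hνpair _ γ.2 κ h1 h2 h3, mul_zero]

end Pool.Agent.Q149.EG
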